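import Pool.Agent.Helper76.GT.St

/-!
# MP_b731ff_al, project GT, module GRA: Gram matrices on balls
-/

set_option autoImplicit false

namespace Pool.Agent.Helper74.GT

open Pool.Agent.Helper76.GT Filter
open scoped Pointwise

universe u

section

variable {H : Type u} [Group H] [DecidableEq H]

/-- the balls exhaust the group -/
theorem exists_mem_pow {S : Finset H} (hS : Gen S) (t : H) : ∃ c : ℕ, t ∈ S ^ c := by
  have ht : t ∈ Subgroup.closure (S : Set H) := hS.gen ▸ Subgroup.mem_top t
  refine Subgroup.closure_induction (p := fun x _ => ∃ c : ℕ, x ∈ S ^ c) ?_ ?_ ?_ ?_ ht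
  · intro x hx
    exact ⟨1, by rw [pow_one]; exact hx⟩
  · exact ⟨0, by rw [pow_zero]; exact Finset.mem_one.2 rfl⟩
  · rintro x y - - ⟨a, ha⟩ ⟨b, hb⟩
    exact ⟨a + b, by rw [pow_add]; exact Finset.mul_mem_mul ha hb⟩
  · rintro x - ⟨a, ha⟩
    refine ⟨a, ?_⟩
    have hSinv : S⁻¹ = S := by
      ext s
      rw [Finset.mem_inv']
      constructor
      · intro h
        have := hS.inv _ h
        rwa [inv_inv] at this
      · intro h
        exact hS.inv _ h
    have h1 : x⁻¹ ∈ (S ^ a)⁻¹ := Finset.inv_mem_inv ha
    rwa [← inv_pow, hSinv] at h1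

/-- the matrix of the values on a ball -/
def vals (S : Finset H) {N : ℕ} (f : Fin N → H → ℝ) (R : ℕ) :
    Matrix ↥(S ^ R) (Fin N) ℝ := fun x i => f i x

theorem gram_eq (S : Finset H) {N : ℕ} (f : Fin N → H → ℝ) (R : ℕ) :
    gram S f R = (vals S f R).conjTranspose * vals S f R := by
  ext i j
  rw [Matrix.mul_apply]
  simp only [gram, Matrix.conjTranspose_apply, vals, star_trivial]
  exact (Finset.sum_coe_sort (S ^ R) (fun x => f i x * f j x)).symm

theorem pGRA (H : Type u) [Group H] [DecidableEq H] : GRA H := by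
  intro S hS N f
  refine ⟨?_, ?_, ?_⟩
  · intro R
    rw [gram_eq]
    exact Matrix.posSemidef_conjTranspose_mul_self _
  · intro hf
    let K : ℕ → Submodule ℝ (Fin N → ℝ) := fun R =>
      { carrier := {v | ∀ x ∈ S ^ R, ∑ i, v i * f i x = 0}
        add_mem' := by
          intro a b ha hb x hx
          have h1 := ha x hx
          have h2 := hb x hx
          simp only [Pi.add_apply, add_mul, Finset.sum_add_distrib, h1, h2, add_zero]
        zero_mem' := by
          intro x _
          simp
        smul_mem' := by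
          intro c a ha x hx
          have h1 := ha x hx
          simp only [Pi.smul_apply, smul_eq_mul, mul_assoc, ← Finset.mul_sum, h1, mul_zero] }
    have hK : ∀ R v, v ∈ K R ↔ ∀ x ∈ S ^ R, ∑ i, v i * f i x = 0 := fun R v => Iff.rfl
    have hanti : ∀ m n : ℕ, m ≤ n → K n ≤ K m := by
      intro m n hmn v hv x hx
      exact hv x (Finset.pow_subset_pow_right hS.one hmn hx)
    obtain ⟨R₀, hR₀⟩ := IsArtinian.monotone_stabilizes
      (⟨fun n => OrderDual.toDual (K n), fun m n hmn => hanti m n hmn⟩ :
        ℕ →o (Submodule ℝ (Fin N → ℝ))ᵒᵈ)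
    have hstab : ∀ m, R₀ ≤ m → K R₀ = K m := fun m hm => by
      have := hR₀ m hm
      exact this
    have hbot : K R₀ = ⊥ := by
      rw [eq_bot_iff]
      intro v hv
      rw [Submodule.mem_bot]
      have hall : ∀ x : H, ∑ i, v i * f i x = 0 := by
        intro x
        obtain ⟨c, hc⟩ := exists_mem_pow hS x
        have h1 : v ∈ K (max R₀ c) := hstab _ (le_max_left _ _) ▸ hv
        exact h1 x (Finset.pow_subset_pow_right hS.one (le_max_right _ _) hc)
      have hsum : ∑ i, v i • f i = 0 := by
        funext x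
        rw [Finset.sum_apply]
        simpa using hall x
      funext i
      exact Fintype.linearIndependent_iff.1 hf v hsum i
    refine ⟨R₀, fun R hR => ?_⟩
    rw [gram_eq]
    refine Matrix.PosDef.conjTranspose_mul_self _ ?_
    intro v w hvw
    have hd : v - w ∈ K R := by
      intro x hx
      have h1 := congrFun hvw ⟨x, hx⟩
      simp only [Matrix.mulVec, dotProduct, vals] at h1
      simp only [Pi.sub_apply, sub_mul, Finset.sum_sub_distrib]
      rw [sub_eq_zero]
      simpa only [mul_comm] using h1
    rw [← hstab R hR, hbot, Submodule.mem_bot] at hd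
    exact sub_eq_zero.1 hd
  · intro C R hC hb
    have hent : ∀ i j, AbsoluteValue.abs (gram S f R i j) ≤
        (C * R) ^ 2 * ((S ^ R).card : ℝ) := by
      intro i j
      rw [AbsoluteValue.abs_apply]
      simp only [gram]
      refine (Finset.abs_sum_le_sum_abs _ _).trans ?_
      refine (Finset.sum_le_card_nsmul _ _ ((C * R) ^ 2) ?_).trans ?_
      · intro x hx
        rw [abs_mul, sq]
        exact mul_le_mul (hb i R x hx) (hb j R x hx) (abs_nonneg _)
          (mul_nonneg hC (Nat.cast_nonneg _))
      · rw [nsmul_eq_mul, mul_comm]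
    have h := Matrix.det_le hent
    rw [AbsoluteValue.abs_apply, Fintype.card_fin, nsmul_eq_mul] at h
    exact (le_abs_self _).trans h

end

end Pool.Agent.Helper74.GT
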